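import Mathlib
import Pool.Agent.H85.RT.Defs
import Pool.Agent.H85.RT.Main
import Pool.Agent.H84.SS.Bou

/-!
# Return times for double recurrence averages: weights orthogonal to a tail, Kolmogorov systems
-/

namespace Pool.Agent.Results.MP_352bb5_an.KolmogorovWeights

open MeasureTheory Pool.Agent.H85.RT

universe u v

theorem result :
    (∀ (Ω : Type v) (P : MeasurableSpace Ω) [m0 : MeasurableSpace Ω] (m : Measure Ω)
      [IsProbabilityMeasure m] (S : Ω ≃ᵐ Ω), MeasurePreserving S m m →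
      P ≤ m0 → IsMono S.toEquiv P → ∀ h : Ω → ℂ, MemLp h ⊤ m →
      AEStronglyMeasurable[span S.toEquiv P] h m →
      ∃ G : Set Ω, MeasurableSet G ∧ m G = 1 ∧ ∀ ω ∈ G,
        NullWeight.{u} (fun n => h (S^[n] ω) - (m[h | tail S.toEquiv P]) (S^[n] ω)) ∧
        (Good.{u} S h ω ↔ Good.{u} S (m[h | tail S.toEquiv P]) ω)) ∧
    (∀ (Ω : Type v) [MeasurableSpace Ω] (m : Measure Ω) [IsProbabilityMeasure m] (S : Ω ≃ᵐ Ω),
      MeasurePreserving S m m → IsK S m → ∀ h : Ω → ℂ, MemLp h ⊤ m →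
      ∃ G : Set Ω, MeasurableSet G ∧ m G = 1 ∧ ∀ ω ∈ G,
        NullWeight.{u} (fun n => h (S^[n] ω) - ∫ ω', h ω' ∂m) ∧ Good.{u} S h ω) := by
  refine ⟨?_, ?_⟩
  · intro Ω P m0 m _ S hS hP0 hP h hh hspan
    obtain ⟨G, hG1, hG2, hG3⟩ :=
      @exists_set Ω m0 m _ _ (@complex_main.{u, v} Ω P m0 m _ S hS hP0 hP h hh hspan)
    exact ⟨G, hG1, hG2, fun ω hω => ⟨hG3 ω hω, good_iff (hG3 ω hω)⟩⟩
  · intro Ω m0 m _ S hS hK h hh
    obtain ⟨P, hK⟩ := hK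
    obtain ⟨G, hG1, hG2, hG3⟩ :=
      @exists_set Ω m0 m _ _ (@K_main.{u, v} Ω P m0 m _ S hS hK h hh)
    refine ⟨G, hG1, hG2, fun ω hω => ⟨hG3 ω hω, ?_⟩⟩
    exact ((good_iff (v := fun _ => ∫ ω', h ω' ∂m) (hG3 ω hω)).trans good_const).2
      (Or.inr Pool.Agent.H84.SS.gw_one.{u})

end Pool.Agent.Results.MP_352bb5_an.KolmogorovWeights
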