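import Mathlib
import Pool.Agent.H85.RT.Defs
import Pool.Agent.H85.RTM.Defs
import Pool.Agent.H85.RTM.Final
import Pool.Agent.H84.SS.Bou

/-!
# Return times for double recurrence averages: weights with eightfold mixing at a logarithmic rate
-/

namespace Pool.Agent.Results.MP_352bb5_an.MixingWeights

open MeasureTheory Pool.Agent.H85.RT Pool.Agent.H85.RTM

universe u v

theorem result :
    (∀ (Ω : Type v) [MeasurableSpace Ω] (m : Measure Ω) [IsProbabilityMeasure m] (S : Ω ≃ᵐ Ω),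
      MeasurePreserving S m m → ∀ h : Ω → ℂ, MemLp h ⊤ m → MixClosure S m h →
      ∃ G : Set Ω, MeasurableSet G ∧ m G = 1 ∧ ∀ ω ∈ G,
        NullWeight.{u} (fun n => h (S^[n] ω))) ∧
    (∀ (Ω : Type v) [MeasurableSpace Ω] (m : Measure Ω) [IsProbabilityMeasure m] (S : Ω ≃ᵐ Ω),
      MeasurePreserving S m m → IsMix8 S m → ∀ h : Ω → ℂ, MemLp h ⊤ m →
      ∃ G : Set Ω, MeasurableSet G ∧ m G = 1 ∧ ∀ ω ∈ G,
        NullWeight.{u} (fun n => h (S^[n] ω) - ∫ ω', h ω' ∂m) ∧ Good.{u} S h ω) := by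
  refine ⟨?_, ?_⟩
  · intro Ω _ m _ S hS h hh hcl
    exact main_closure.{u, v} hS hh hcl
  · intro Ω _ m _ S hS hmix h hh
    obtain ⟨G, hG1, hG2, hG3⟩ := main_system.{u, v} hS hmix hh
    exact ⟨G, hG1, hG2, fun ω hω => ⟨(hG3 ω hω).1,
      (hG3 ω hω).2.2 (Or.inr Pool.Agent.H84.SS.gw_one.{u})⟩⟩

end Pool.Agent.Results.MP_352bb5_an.MixingWeights
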