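import Mathlib
import Pool.Agent.H85.RT.Defs
import Pool.Agent.H84.SS.Defs
import Pool.Agent.H84.SS.Final2

/-!
# Return times for double recurrence averages: functions with singular spectral measure
-/

namespace Pool.Agent.Results.MP_352bb5_an.SingularSpectrum

open MeasureTheory Filter Topology Pool.Agent.H85.RT
open Pool.Agent.H84.SS (Sing SingC)

universe u v

theorem result (Ω : Type v) (P : MeasurableSpace Ω) [m0 : MeasurableSpace Ω] (m : Measure Ω)
    [IsProbabilityMeasure m] (S : Ω ≃ᵐ Ω) (hS : Ergodic S m) (hP0 : P ≤ m0)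
    (hP : IsMono S.toEquiv P) (h : Ω → ℂ) (hh : MemLp h ⊤ m)
    (hs : AEStronglyMeasurable[span S.toEquiv P] h m) :
    ∃ G : Set Ω, MeasurableSet G ∧ m G = 1 ∧ ∀ ω ∈ G,
      (Sing m S (m[h | tail S.toEquiv P]) → Good.{u} S h ω) ∧
      (SingC m S (m[h | tail S.toEquiv P]) → NullWeight.{u} (fun n => h (S^[n] ω))) ∧
      (∀ (X : Type u) (Q : MeasurableSpace X) [mX : MeasurableSpace X] (μ : Measure X)
        [IsProbabilityMeasure μ] (T : X ≃ᵐ X), Ergodic T μ → Q ≤ mX → IsMono T.toEquiv Q →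
        ∀ f g : X → ℂ, MemLp f ⊤ μ → MemLp g ⊤ μ →
        AEStronglyMeasurable[span T.toEquiv Q] f μ → AEStronglyMeasurable[span T.toEquiv Q] g μ →
        Sing μ T (μ[f | tail T.toEquiv Q]) ∨ Sing μ T (μ[g | tail T.toEquiv Q]) →
          ∀ᵐ x ∂μ, ∃ l : ℂ,
            Tendsto (fun N => avg T f g (fun n => h (S^[n] ω)) N x) atTop (𝓝 l)) :=
  Pool.Agent.H84.SS.final2.{u, v} Ω P m S hS hP0 hP h hh hs

end Pool.Agent.Results.MP_352bb5_an.SingularSpectrum
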