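import Mathlib
import Pool.Agent.H85.RT.Defs
import Pool.Agent.H85.RTX.Final

/-!
# Return times for double recurrence averages: reduction to the tail of the system `X`, Kolmogorov
systems `X`
-/

namespace Pool.Agent.Results.MP_352bb5_an.SystemSide

open MeasureTheory Filter Topology Pool.Agent.H85.RT Pool.Agent.H85.RTX

universe u v

theorem result :
    (∀ (X : Type u) (P : MeasurableSpace X) [m0 : MeasurableSpace X] (μ : Measure X)
      [IsProbabilityMeasure μ] (T : X ≃ᵐ X), MeasurePreserving T μ μ →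
      P ≤ m0 → IsMono T.toEquiv P → ∀ f g : X → ℂ, MemLp f ⊤ μ → MemLp g ⊤ μ →
      AEStronglyMeasurable[span T.toEquiv P] f μ → AEStronglyMeasurable[span T.toEquiv P] g μ →
      ∀ w : ℕ → ℂ, (∃ C : ℝ, ∀ n, ‖w n‖ ≤ C) →
      ∀ᵐ x ∂μ, Tendsto (fun N => avg T f g w N x -
        avg T (μ[f | tail T.toEquiv P]) (μ[g | tail T.toEquiv P]) w N x) atTop (𝓝 0)) ∧
    (∀ (Ω : Type v) [MeasurableSpace Ω] (m : Measure Ω) [IsProbabilityMeasure m] (S : Ω ≃ᵐ Ω),
      MeasurePreserving S m m → ∀ h : Ω → ℂ, MemLp h ⊤ m →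
      ∃ G : Set Ω, MeasurableSet G ∧ m G = 1 ∧ ∀ ω ∈ G, ∃ l : ℂ,
        ∀ (X : Type u) [MeasurableSpace X] (μ : Measure X) [IsProbabilityMeasure μ] (T : X ≃ᵐ X),
          MeasurePreserving T μ μ → IsK T μ → ∀ f g : X → ℂ, MemLp f ⊤ μ → MemLp g ⊤ μ →
          ∀ᵐ x ∂μ, Tendsto (fun N => avg T f g (fun n => h (S^[n] ω)) N x) atTop
            (𝓝 ((∫ x, f x ∂μ) * (∫ x, g x ∂μ) * l))) := by
  refine ⟨?_, ?_⟩
  · intro X P m0 μ _ T hT hP0 hP f g hf hg hfs hgs w hw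
    exact @complex_side X P m0 μ _ T hT hP0 hP f g hf hg hfs hgs w hw
  · intro Ω _ m _ S hS h hh
    exact exists_set (K_return.{u, v} hS hh)

end Pool.Agent.Results.MP_352bb5_an.SystemSide
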